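import Pool.Agent.H85.LSP.Def2

/-!
# LSQ: weights for the roots of an integer polynomial
-/

set_option autoImplicit false

namespace Pool.LSP

open Polynomial Finset
open scoped ComplexConjugate

theorem rt_conj (Q : ℤ[X]) {α : ℂ} (h : α ∈ Rt Q) : conj α ∈ Rt Q := by
  unfold Rt at *
  have hne : Q.map (Int.castRingHom ℂ) ≠ 0 := by
    intro h0
    rw [h0, roots_zero] at h
    exact absurd h (Multiset.notMem_zero _)
  rw [mem_roots hne] at h ⊢
  rw [IsRoot.def, eval_map] at h ⊢
  have h2 := congrArg (starRingEnd ℂ) h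
  rw [map_zero, hom_eval₂] at h2
  have e : (starRingEnd ℂ).comp (Int.castRingHom ℂ) = Int.castRingHom ℂ := RingHom.ext_int _ _
  rwa [e] at h2

theorem rt_image_conj (Q : ℤ[X]) :
    (Rt Q).toFinset.image (fun β => conj β) = (Rt Q).toFinset := by
  classical
  ext α
  simp only [mem_image, Multiset.mem_toFinset]
  constructor
  · rintro ⟨β, hβ, rfl⟩
    exact rt_conj Q hβ
  · intro h
    exact ⟨conj α, rt_conj Q h, Complex.conj_conj α⟩

theorem rt_card (Q : ℤ[X]) (hn : (Rt Q).Nodup) : (Rt Q).toFinset.card = Q.natDegree := by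
  classical
  rw [Multiset.toFinset_card_of_nodup hn]
  unfold Rt
  rw [← (IsAlgClosed.splits (Q.map (Int.castRingHom ℂ))).natDegree_eq_card_roots]
  exact natDegree_map_eq_of_injective (RingHom.injective_int (Int.castRingHom ℂ)) Q

/-- The recurrence satisfied by the powers of a root. -/
theorem rt_rec (Q : ℤ[X]) {α : ℂ} (h : α ∈ Rt Q) (n : ℕ) :
    ∑ i ∈ range (Q.natDegree + 1), (Q.coeff i : ℂ) * α ^ (n + i) = 0 := by
  unfold Rt at h
  have hne : Q.map (Int.castRingHom ℂ) ≠ 0 := by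
    intro h0
    rw [h0, roots_zero] at h
    exact absurd h (Multiset.notMem_zero _)
  rw [mem_roots hne, IsRoot.def, eval_map, eval₂_eq_sum_range] at h
  have : ∑ i ∈ range (Q.natDegree + 1), (Q.coeff i : ℂ) * α ^ (n + i) =
      α ^ n * ∑ i ∈ range (Q.natDegree + 1), (Int.castRingHom ℂ) (Q.coeff i) * α ^ i := by
    rw [mul_sum]
    refine sum_congr rfl fun i _ => ?_
    rw [pow_add, eq_intCast]
    ring
  rw [this, h, mul_zero]

/-- The recurrence for a sum over the roots. -/
theorem rt_rec_sum (Q : ℤ[X]) (w : ℂ → ℂ) (n : ℕ) :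
    (Q.leadingCoeff : ℂ) * ∑ α ∈ (Rt Q).toFinset, w α * α ^ (n + Q.natDegree) =
      -∑ i ∈ range Q.natDegree, (Q.coeff i : ℂ) * ∑ α ∈ (Rt Q).toFinset, w α * α ^ (n + i) := by
  classical
  have h : ∑ α ∈ (Rt Q).toFinset, w α *
      ∑ i ∈ range (Q.natDegree + 1), (Q.coeff i : ℂ) * α ^ (n + i) = 0 := by
    refine sum_eq_zero fun α hα => ?_
    rw [rt_rec Q (Multiset.mem_toFinset.1 hα), mul_zero]
  simp only [mul_sum] at h
  rw [sum_comm, sum_range_succ] at h
  have e1 : (Q.leadingCoeff : ℂ) * ∑ α ∈ (Rt Q).toFinset, w α * α ^ (n + Q.natDegree) =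
      ∑ α ∈ (Rt Q).toFinset, w α * ((Q.coeff Q.natDegree : ℂ) * α ^ (n + Q.natDegree)) := by
    rw [mul_sum]
    refine sum_congr rfl fun α _ => ?_
    rw [leadingCoeff]
    ring
  have e2 : ∑ i ∈ range Q.natDegree, (Q.coeff i : ℂ) * ∑ α ∈ (Rt Q).toFinset, w α * α ^ (n + i) =
      ∑ i ∈ range Q.natDegree, ∑ α ∈ (Rt Q).toFinset, w α * ((Q.coeff i : ℂ) * α ^ (n + i)) := by
    refine sum_congr rfl fun i _ => ?_
    rw [mul_sum]
    refine sum_congr rfl fun α _ => ?_
    ring
  rw [e1, e2]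
  linear_combination h

theorem t_wts (hE : EULStmt) : WTSStmt := by
  classical
  intro Q hn hd
  obtain ⟨w, hw1, hw2, hw3⟩ := hE (Rt Q).toFinset
  have hc := rt_card Q hn
  refine ⟨w, ⟨fun α hα => hw1 α (Multiset.mem_toFinset.2 hα),
    fun α => hw2 α (Finset.ext fun x => by
      have h := Finset.ext_iff.1 (rt_image_conj Q) x
      rw [Finset.mem_image] at h ⊢
      exact h), ?_⟩⟩
  intro n
  induction n using Nat.strong_induction_on with
  | _ n ih =>
    rcases Nat.lt_or_ge n Q.natDegree with h | h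
    · have h3 := hw3 n (by omega)
      rw [h3]
      split_ifs with h4
      · exact ⟨Q.leadingCoeff ^ n, by push_cast; ring⟩
      · exact ⟨0, by simp⟩
    · obtain ⟨m, rfl⟩ : ∃ m, n = m + Q.natDegree := ⟨n - Q.natDegree, by omega⟩
      choose! x hx using ih
      refine ⟨-∑ i ∈ range Q.natDegree, Q.coeff i * Q.leadingCoeff ^ (Q.natDegree - 1 - i) *
        x (m + i), ?_⟩
      have hr := rt_rec_sum Q w m
      have e : (Q.leadingCoeff : ℂ) ^ (m + Q.natDegree) =
          (Q.leadingCoeff : ℂ) ^ (m + Q.natDegree - 1) * (Q.leadingCoeff : ℂ) := by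
        rw [← pow_succ]
        congr 1
        omega
      rw [e, mul_assoc, hr, mul_neg, mul_sum]
      push_cast
      congr 1
      refine sum_congr rfl fun i hi => ?_
      rw [mem_range] at hi
      rw [← hx (m + i) (by omega)]
      have e2 : (Q.leadingCoeff : ℂ) ^ (m + Q.natDegree - 1) =
          (Q.leadingCoeff : ℂ) ^ (Q.natDegree - 1 - i) * (Q.leadingCoeff : ℂ) ^ (m + i) := by
        rw [← pow_add]
        congr 1
        omega
      rw [e2]
      ring

end Pool.LSP
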